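import Pool.Agent.T9h7.RE.Pot

/-!
Piece (BND2) of helper7's multi-scale strategy (total space, width and depth).
-/

set_option autoImplicit false

namespace Pool.Agent.T9h65.RE

open Pool.Agent.T9h7.RD Pool.Agent.T9h7.RE

theorem sBnd : SBnd := by
  intro n M T η s w ε hε hsε hne hs hw σ hI hab
  obtain ⟨hlt, hbT, hi1, hi2, hi3, hi4⟩ := hI
  have hn0 : (0 : ℝ) ≤ (n : ℝ) := Nat.cast_nonneg n
  have hB1 : (1 : ℝ) ≤ 2 * (n : ℝ) + 2 := by linarith
  have hB0 : (0 : ℝ) < 2 * (n : ℝ) + 2 := by linarith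
  set L : ℝ := Real.log (2 * (n : ℝ) + 2) with hL
  have hL0 : 0 ≤ L := Real.log_nonneg hB1
  have hBexp : Real.exp L = 2 * (n : ℝ) + 2 := Real.exp_log hB0
  have ht1 : σ.a < σ.a + 1 := Nat.lt_succ_self _
  have ht2 : σ.a + 1 < σ.b := by omega
  have htT : σ.a + 1 < T := lt_of_lt_of_le ht2 hbT
  -- the basic estimate
  have key : ∀ C ∈ M (σ.a + 1), σ.z C - (C.card : ℝ) * L ≤
      2 + (ε * σ.nI - ε * σ.nB) := by
    intro C hC
    have hCV : C ∈ V M σ.a σ.b := by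
      unfold V
      rw [Finset.mem_biUnion]
      exact ⟨σ.a + 1, Finset.mem_Ioo.2 ⟨ht1, ht2⟩, hC⟩
    have h1 : wt σ.z C ≤ W M σ.z σ.a σ.b := by
      unfold W
      exact Finset.single_le_sum (f := wt σ.z)
        (fun D _ => by unfold wt; positivity) hCV
    have h2 : wt σ.z C = Real.exp (σ.z C - (C.card : ℝ) * L) := by
      unfold wt
      rw [Real.exp_sub, Real.exp_nat_mul, hBexp]
    have h3 : (3 : ℝ) ≤ Real.exp 2 := by
      have := Real.add_one_le_exp (2 : ℝ)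
      linarith
    have h4 : Real.exp (σ.z C - (C.card : ℝ) * L) ≤
        Real.exp (2 + (ε * σ.nI - ε * σ.nB)) := by
      rw [← h2, Real.exp_add]
      refine h1.trans (hi2.trans ?_)
      exact mul_le_mul_of_nonneg_right h3 (Real.exp_pos _).le
    exact Real.exp_le_exp.1 h4
  have hcardw : ∀ C ∈ M (σ.a + 1), (C.card : ℝ) * L ≤ (w : ℝ) * L := by
    intro C hC
    have : (C.card : ℝ) ≤ (w : ℝ) := by exact_mod_cast hw _ htT.le C hC
    exact mul_le_mul_of_nonneg_right this hL0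
  have hnB : 0 ≤ ε * (σ.nB : ℝ) := by positivity
  refine ⟨?_, ?_, ?_⟩
  · calc 2 ^ σ.nA = 1 * 2 ^ σ.nA := (one_mul _).symm
      _ ≤ (σ.b - σ.a - 1) * 2 ^ σ.nA := Nat.mul_le_mul_right _ (by omega)
      _ ≤ T := hi1
  · have h5 := hi3 (σ.a + 1) ht1 ht2
    have h6 : ∑ C ∈ M (σ.a + 1), (C.card : ℝ) * σ.z C ≤
        ∑ C ∈ M (σ.a + 1), (C.card : ℝ) * (2 + (w : ℝ) * L + ε * σ.nI) := by
      refine Finset.sum_le_sum fun C hC => ?_
      refine mul_le_mul_of_nonneg_left ?_ (Nat.cast_nonneg _)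
      have := key C hC
      have := hcardw C hC
      linarith
    rw [← Finset.sum_mul] at h6
    have h7 : (∑ C ∈ M (σ.a + 1), (C.card : ℝ)) ≤ (s : ℝ) := by
      exact_mod_cast hs _ htT.le
    have h8 : 0 ≤ 2 + (w : ℝ) * L + ε * σ.nI := by positivity
    have h9 := mul_le_mul_of_nonneg_right h7 h8
    have h10 : 2 * (s : ℝ) * ε * σ.nI ≤ (η : ℝ) * σ.nI :=
      mul_le_mul_of_nonneg_right hsε (Nat.cast_nonneg _)
    nlinarith
  · obtain ⟨C, hC⟩ := hne (σ.a + 1) (Nat.succ_pos _) htT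
    have h1 := key C hC
    have h2 := hcardw C hC
    have h3 := hi4 C
    linarith

end Pool.Agent.T9h65.RE
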